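import Mathlib

/-!
Chains of traces in finite fields of characteristic two, for the semifields of Kantor and Williams.
-/

set_option autoImplicit false

namespace H68.TC

/-- `T i` = trace of `F` onto the `i`-th field of a chain `F = F_0 > F_1 > ... > F_n`, all degrees odd
(`T i = 0` for `i > n`); `c p` lies in `F_p` and is killed by `T i` for `i > p`. -/
structure Chain (F : Type) [Field F] (n : ℕ) (T : ℕ → F →+ F) (c : ℕ → F) : Prop where
  two : (2 : F) = 0
  T0 : ∀ a, T 0 a = a
  sq : ∀ i a, T i (a * a) = T i a * T i a
  mul : ∀ i a b, T i (T i a * b) = T i a * T i b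
  down : ∀ i j, i ≤ j → ∀ a, T j (T i a) = T j a
  up : ∀ i j, i ≤ j → ∀ a, T i (T j a) = T j a
  cle : ∀ i p, i ≤ p → T i (c p) = c p
  clt : ∀ i p, p < i → T i (c p) = 0
  cne : ∀ p, p ≤ n → c p ≠ 0

section Step

variable (K L : Type) [Field K] [Field L] [Algebra K L]

/-- the maps of the longer chain -/
noncomputable def T' (T : ℕ → K →+ K) : ℕ → L →+ L
  | 0 => AddMonoidHom.id L
  | (i + 1) => (algebraMap K L).toAddMonoidHom.comp
      ((T i).comp (Algebra.trace K L).toAddMonoidHom)

/-- the elements of the longer chain -/
noncomputable def c' (c : ℕ → K) (c0 : L) : ℕ → L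
  | 0 => c0
  | (p + 1) => algebraMap K L (c p)

@[simp] theorem T'_zero (T : ℕ → K →+ K) (a : L) : T' K L T 0 a = a := rfl

@[simp] theorem T'_succ (T : ℕ → K →+ K) (i : ℕ) (a : L) :
    T' K L T (i + 1) a = algebraMap K L (T i (Algebra.trace K L a)) := rfl

theorem trace_alg (h2 : (2 : K) = 0) (hodd : Odd (Module.finrank K L)) (k : K) :
    Algebra.trace K L (algebraMap K L k) = k := by
  rw [Algebra.trace_algebraMap]
  obtain ⟨r, hr⟩ := hodd
  rw [hr, add_smul, mul_comm, mul_smul, one_smul]
  have : (2 : ℕ) • k = 0 := by
    rw [two_nsmul, ← two_mul, h2, zero_mul]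
  rw [this, smul_zero, zero_add]

theorem trace_mul (k : K) (b : L) :
    Algebra.trace K L (algebraMap K L k * b) = k * Algebra.trace K L b := by
  rw [← Algebra.smul_def, map_smul, smul_eq_mul]

theorem trace_sq [Finite L] (h2 : (2 : K) = 0) (a : L) :
    Algebra.trace K L (a * a) = Algebra.trace K L a * Algebra.trace K L a := by
  have h2L : (2 : L) = 0 := by
    have := congrArg (algebraMap K L) h2
    rwa [map_ofNat, map_zero] at this
  have : CharP L 2 := CharTwo.of_one_ne_zero_of_two_eq_zero one_ne_zero h2L
  apply (algebraMap K L).injective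
  rw [map_mul (algebraMap K L), FiniteField.algebraMap_trace_eq_sum_pow,
    FiniteField.algebraMap_trace_eq_sum_pow, ← sq (Finset.sum _ _), CharTwo.sum_sq]
  apply Finset.sum_congr rfl
  intro i _
  rw [mul_pow, sq]

theorem exists_trace_zero [FiniteDimensional K L] (h1 : 1 < Module.finrank K L) :
    ∃ c0 : L, c0 ≠ 0 ∧ Algebra.trace K L c0 = 0 := by
  have h : LinearMap.ker (Algebra.trace K L) ≠ ⊥ := by
    apply LinearMap.ker_ne_bot_of_finrank_lt
    simpa using h1
  obtain ⟨c0, hc, hne⟩ := (Submodule.ne_bot_iff _).1 h
  exact ⟨c0, hne, by simpa using hc⟩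

theorem step [Finite L] (n : ℕ) (T : ℕ → K →+ K) (c : ℕ → K) (h : Chain K n T c)
    (hodd : Odd (Module.finrank K L)) (c0 : L) (hc0 : c0 ≠ 0) (ht : Algebra.trace K L c0 = 0) :
    Chain L (n + 1) (T' K L T) (c' K L c c0) := by
  have htr := trace_alg K L h.two hodd
  constructor
  · have := congrArg (algebraMap K L) h.two
    rwa [map_ofNat, map_zero] at this
  · intro a; rfl
  · rintro (_ | i) a
    · rfl
    · simp only [T'_succ]
      rw [trace_sq K L h.two, h.sq, map_mul]
  · rintro (_ | i) a b
    · rfl
    · simp only [T'_succ]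
      rw [trace_mul, h.mul, map_mul]
  · rintro (_ | i) (_ | j) hij a
    · rfl
    · rfl
    · omega
    · simp only [T'_succ]
      rw [htr, h.down i j (by omega)]
  · rintro (_ | i) (_ | j) hij a
    · rfl
    · rfl
    · omega
    · simp only [T'_succ]
      rw [htr, h.up i j (by omega)]
  · rintro (_ | i) (_ | p) hip
    · rfl
    · rfl
    · omega
    · simp only [T'_succ, c']
      rw [htr, h.cle i p (by omega)]
  · rintro (_ | i) (_ | p) hip
    · omega
    · omega
    · simp only [T'_succ, c']
      rw [ht, map_zero, map_zero]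
    · simp only [T'_succ, c']
      rw [htr, h.clt i p (by omega), map_zero]
  · rintro (_ | p) hp
    · exact hc0
    · simp only [c']
      rw [Ne, map_eq_zero]
      exact h.cne p (by omega)

end Step

/-- chains of every length exist -/
theorem exists_chain (n : ℕ) : ∃ (K : Type) (_ : Field K) (_ : Finite K) (_ : CharP K 2)
    (T : ℕ → K →+ K) (c : ℕ → K), Chain K n T c := by
  induction n with
  | zero =>
    have : Fact (Nat.Prime 2) := ⟨Nat.prime_two⟩
    refine ⟨ZMod 2, inferInstance, inferInstance, inferInstance,
      fun i => if i = 0 then AddMonoidHom.id _ else 0, fun i => if i = 0 then 1 else 0, ?_⟩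
    constructor
    · rfl
    · intro a; simp
    · intro i a; by_cases h : i = 0 <;> simp [h]
    · intro i a b; by_cases h : i = 0 <;> simp [h]
    · intro i j hij a
      by_cases h : i = 0
      · simp [h]
      · have : j ≠ 0 := by omega
        simp [this]
    · intro i j hij a
      by_cases h : i = 0
      · simp [h]
      · have : j ≠ 0 := by omega
        simp [this]
    · intro i p hip
      by_cases h : i = 0
      · simp [h]
      · have : p ≠ 0 := by omega
        simp [this]
    · intro i p hip
      have : i ≠ 0 := by omega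
      simp [this]
    · intro p hp
      have : p = 0 := by omega
      simp [this]
  | succ n ih =>
    obtain ⟨K, _, _, _, T, c, h⟩ := ih
    have : Fact (Nat.Prime 2) := ⟨Nat.prime_two⟩
    have hfr : Module.finrank K (FiniteField.Extension K 2 3) = 3 :=
      FiniteField.finrank_extension K 2 3
    obtain ⟨c0, hc0, ht⟩ := exists_trace_zero K (FiniteField.Extension K 2 3)
      (by rw [hfr]; norm_num)
    have hs := step K (FiniteField.Extension K 2 3) n T c h (by rw [hfr]; decide) c0 hc0 ht
    refine ⟨FiniteField.Extension K 2 3, inferInstance, inferInstance,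
      CharTwo.of_one_ne_zero_of_two_eq_zero one_ne_zero hs.two, _, _, hs⟩

/-- prescribing traces against a linearly independent family -/
theorem exists_trace_eq (K L : Type) [Field K] [Finite K] [Field L] [Finite L] [Algebra K L] {ι : Type} (y : ι → L)
    (hy : LinearIndependent K y) (g : ι → K) :
    ∃ M : L, ∀ s, Algebra.trace K L (y s * M) = g s := by
  have : Module.Finite K L := Module.Finite.of_finite
  -- a linear functional with the prescribed values
  let b := Module.Basis.extend hy.linearIndepOn_id
  obtain ⟨f, hf⟩ : ∃ f : L →ₗ[K] K, ∀ s, f (y s) = g s := by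
    obtain ⟨f, hf⟩ := LinearMap.exists_leftInverse_of_injective
      (Finsupp.linearCombination K y) (LinearMap.ker_eq_bot.2 hy)
    refine ⟨(Finsupp.linearCombination K g).comp f, fun s => ?_⟩
    have : f (y s) = Finsupp.single s 1 := by
      have := LinearMap.congr_fun hf (Finsupp.single s 1)
      simpa using this
    rw [LinearMap.comp_apply, this]
    simp
  have hnd := traceForm_nondegenerate K L
  refine ⟨((Algebra.traceForm K L).toDual hnd).symm f, fun s => ?_⟩
  have h2 : (Algebra.traceForm K L) (((Algebra.traceForm K L).toDual hnd).symm f) (y s) = f (y s) := by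
    rw [LinearMap.BilinForm.apply_toDual_symm_apply]
  rw [Algebra.traceForm_apply] at h2
  rw [mul_comm, h2, hf]

end H68.TC
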