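import Pool.Agent.H68.TC.Chain

set_option autoImplicit false

namespace H68.TC

theorem two_pow_sum {a b c d : ℕ} (hab : a ≤ b) (hcd : c ≤ d) (h : 2 ^ a + 2 ^ b = 2 ^ c + 2 ^ d) :
    a = c ∧ b = d := by
  have key : ∀ {a b c d : ℕ}, a ≤ b → 2 ^ a + 2 ^ b = 2 ^ c + 2 ^ d → ¬ b < d := by
    intro a b c d hab h hbd
    have h1 : 2 ^ a ≤ 2 ^ b := Nat.pow_le_pow_right (by norm_num) hab
    have h2 : 2 ^ (b + 1) ≤ 2 ^ d := Nat.pow_le_pow_right (by norm_num) hbd
    have h3 : 0 < 2 ^ c := by positivity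
    rw [pow_succ] at h2
    omega
  have hbd : b = d := by
    have h1 := key hab h
    have h2 := key hcd h.symm
    omega
  subst hbd
  have : 2 ^ a = 2 ^ c := by omega
  exact ⟨Nat.pow_right_injective (le_refl 2) this, rfl⟩

theorem two_pow_sum' {a b c d : ℕ} (h : 2 ^ a + 2 ^ b = 2 ^ c + 2 ^ d) :
    (a = c ∧ b = d) ∨ (a = d ∧ b = c) := by
  rcases le_total a b with hab | hab <;> rcases le_total c d with hcd | hcd
  · exact Or.inl (two_pow_sum hab hcd h)
  · obtain ⟨h1, h2⟩ := two_pow_sum hab hcd (by rw [h, add_comm])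
    exact Or.inr ⟨h1, h2⟩
  · obtain ⟨h1, h2⟩ := two_pow_sum hab hcd (by rw [add_comm, h])
    exact Or.inr ⟨h2, h1⟩
  · obtain ⟨h1, h2⟩ := two_pow_sum hab hcd (by rw [add_comm, h, add_comm])
    exact Or.inl ⟨h2, h1⟩

open Classical in
/-- For every number `n + 1` of trace levels and every finite set `E`: a finite field of characteristic
two with a chain of traces `T 0 = id, T 1, ..., T (n+1)`, elements `c 1, ..., c (n+1)` and elements
`x j` (`j : E`) such that all `T 1`-products against `x j * x k` (resp. `x j`) can be prescribed. -/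
theorem exists_sys (n : ℕ) (E : Type) [Finite E] :
    ∃ (F : Type) (_ : Field F) (_ : Finite F) (T : ℕ → F →+ F) (c : ℕ → F) (x : E → F),
      Chain F (n + 1) T c ∧ Function.Injective x ∧
      (∀ g : E → E → F, (∀ j k, T 1 (g j k) = g j k) → (∀ j k, g j k = g k j) →
        ∃ M, ∀ j k, T 1 (x j * x k * M) = g j k) ∧
      (∀ g : E → F, (∀ j, T 1 (g j) = g j) → ∃ u, ∀ j, T 1 (x j * u) = g j) := by
  obtain ⟨K, _, _, _, T, c, h⟩ := exists_chain n
  have : Fact (Nat.Prime 2) := ⟨Nat.prime_two⟩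
  obtain ⟨v, ⟨φ⟩⟩ := Finite.exists_equiv_fin E
  set e : ℕ := 2 ^ (v + 1) + 1 with he
  have : NeZero e := ⟨by omega⟩
  let L := FiniteField.Extension K 2 e
  have hfr : Module.finrank K L = e := FiniteField.finrank_extension K 2 e
  have hodd : Odd (Module.finrank K L) := by
    rw [hfr, he]; exact ⟨2 ^ v, by rw [pow_succ]; ring⟩
  have h1 : 1 < Module.finrank K L := by
    rw [hfr, he]
    have : 0 < 2 ^ (v + 1) := by positivity
    omega
  obtain ⟨c0, hc0, ht⟩ := exists_trace_zero K L h1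
  have hs := step K L n T c h hodd c0 hc0 ht
  obtain ⟨θ, hθ⟩ := Field.exists_primitive_element K L
  have hdeg : (minpoly K θ).natDegree = e :=
    ((Field.primitive_element_iff_minpoly_natDegree_eq K θ).1 hθ).trans hfr
  have hpres : ∀ G : ℕ → K, ∃ M : L, ∀ i < e, Algebra.trace K L (θ ^ i * M) = G i := by
    intro G
    obtain ⟨M, hM⟩ := exists_trace_eq K L (fun i : Fin (minpoly K θ).natDegree => θ ^ (i : ℕ))
      (linearIndependent_pow θ) (fun i => G i)
    exact ⟨M, fun i hi => hM ⟨i, by rw [hdeg]; exact hi⟩⟩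
  have hT1 : ∀ a : L, T' K L T 1 a = algebraMap K L (Algebra.trace K L a) := by
    intro a
    rw [T'_succ, h.T0]
  have hlt : ∀ j : E, ((φ j : Fin v) : ℕ) < v := fun j => (φ j).2
  have hpow : ∀ j : E, 2 ^ ((φ j : Fin v) : ℕ) ≤ 2 ^ v := fun j =>
    Nat.pow_le_pow_right (by norm_num) (hlt j).le
  have hpinj : ∀ {j k : E}, 2 ^ ((φ j : Fin v) : ℕ) = 2 ^ ((φ k : Fin v) : ℕ) → j = k := by
    intro j k hjk
    exact φ.injective (Fin.ext (Nat.pow_right_injective (le_refl 2) hjk))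
  have hinj : ∀ {a b : ℕ}, a < e → b < e → θ ^ a = θ ^ b → a = b := by
    intro a b ha hb hab
    have := (linearIndependent_pow (K := K) θ).injective
      (a₁ := ⟨a, by rw [hdeg]; exact ha⟩) (a₂ := ⟨b, by rw [hdeg]; exact hb⟩) hab
    exact congrArg Fin.val this
  have h2v : 2 ^ (v + 1) = 2 ^ v + 2 ^ v := by rw [pow_succ]; ring
  refine ⟨L, inferInstance, inferInstance, T' K L T, c' K L c c0,
    fun j => θ ^ (2 ^ ((φ j : Fin v) : ℕ)), hs, ?_, ?_, ?_⟩
  · intro j k hjk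
    have h3 := hpow j
    have h4 := hpow k
    exact hpinj (hinj (by omega) (by omega) hjk)
  · intro g hg hsym
    have hg' : ∀ j k, ∃ r : K, algebraMap K L r = g j k := by
      intro j k
      exact ⟨_, by rw [← hT1]; exact hg j k⟩
    choose r hr using hg'
    obtain ⟨M, hM⟩ := hpres (fun i =>
      if hi : ∃ p : E × E, 2 ^ ((φ p.1 : Fin v) : ℕ) + 2 ^ ((φ p.2 : Fin v) : ℕ) = i
        then r hi.choose.1 hi.choose.2 else 0)
    refine ⟨M, fun j k => ?_⟩
    have hjk : ∃ p : E × E, 2 ^ ((φ p.1 : Fin v) : ℕ) + 2 ^ ((φ p.2 : Fin v) : ℕ) =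
        2 ^ ((φ j : Fin v) : ℕ) + 2 ^ ((φ k : Fin v) : ℕ) := ⟨(j, k), rfl⟩
    have h3 := hpow j
    have h4 := hpow k
    have hM' := hM (2 ^ ((φ j : Fin v) : ℕ) + 2 ^ ((φ k : Fin v) : ℕ)) (by omega)
    rw [dif_pos hjk] at hM'
    rw [hT1, ← pow_add, hM', hr]
    rcases two_pow_sum' hjk.choose_spec with ⟨h5, h6⟩ | ⟨h5, h6⟩
    · rw [show hjk.choose.1 = j from φ.injective (Fin.ext h5),
        show hjk.choose.2 = k from φ.injective (Fin.ext h6)]
    · rw [show hjk.choose.1 = k from φ.injective (Fin.ext h5),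
        show hjk.choose.2 = j from φ.injective (Fin.ext h6), hsym]
  · intro g hg
    have hg' : ∀ j, ∃ r : K, algebraMap K L r = g j := by
      intro j
      exact ⟨_, by rw [← hT1]; exact hg j⟩
    choose r hr using hg'
    obtain ⟨M, hM⟩ := hpres (fun i =>
      if hi : ∃ p : E, 2 ^ ((φ p : Fin v) : ℕ) = i then r hi.choose else 0)
    refine ⟨M, fun j => ?_⟩
    have hj : ∃ p : E, 2 ^ ((φ p : Fin v) : ℕ) = 2 ^ ((φ j : Fin v) : ℕ) := ⟨j, rfl⟩
    have h3 := hpow j
    have hM' := hM (2 ^ ((φ j : Fin v) : ℕ)) (by omega)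
    rw [dif_pos hj] at hM'
    rw [hT1, hM', hr, hpinj hj.choose_spec]

end H68.TC
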